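import Pool.Agent.LAT.StmtsC

set_option autoImplicit false

/-!
# Squad LAT, row PHS: properties of the function `phi`
-/

namespace Pool.Agent.LAT.H85

open Pool.Agent.LAT

/-- PHS -/
theorem phs (sub : SubStmt) (pos : PosStmt) : PhsStmt := by
  intro m D
  have hg : ∀ M : Submodule ℤ (Fin m → ℤ), (0 : ℚ) < (gd M : ℚ) := by
    intro M
    have h := pos.2.1 m M
    have h' : (1 : ℚ) ≤ (gd M : ℚ) := by exact_mod_cast h
    linarith
  refine ⟨?_, ?_, ?_, ?_⟩
  · unfold ph
    rw [(pos.2.2 m).1, (pos.2.2 m).2]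
    simp
  · intro M
    unfold ph
    exact div_nonneg (by positivity) (hg M).le
  · intro M
    unfold ph
    rw [one_le_div (hg M)]
    exact_mod_cast Iff.rfl
  · intro M N
    obtain ⟨h1, h2⟩ := sub m M N
    unfold ph
    rw [div_mul_div_comm, div_mul_div_comm, ← pow_add, ← pow_add, h2]
    apply div_le_div_of_nonneg_left (by positivity) (mul_pos (hg _) (hg _))
    exact_mod_cast h1

end Pool.Agent.LAT.H85
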